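import Pool.Agent.W2helper26.PR.Stm

/-! Piece DECS of the project PR. -/

set_option autoImplicit false

namespace Pool.Agent.W2helper24.PR

open Pool.Agent.NPC Pool.Agent.H620R2.Gauge Pool.Agent.W2helper26.PB Pool.Agent.W2helper61.RF Pool.Agent.W2helper26.PR

abbrev Un : Type := List Unit

theorem poly_preR {α : Type} [TEnc α] {n : α → ℕ} (hn : Poly n) : Poly (fun a => preR (n a)) := by
  have h := poly_num hn
  have hle : ∀ k : ℕ, Poly (fun a => (Fm.le (.len (.var k)) (num (n a))).enc) := fun k =>
    poly_le (s := fun _ => .len (.var k)) (NPC.Poly.const _) h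
  exact Poly.append (Poly.append (Poly.append (Poly.append (Poly.append (NPC.Poly.const _)
    (Poly.cons (NPC.Poly.const true) (Poly.cons (NPC.Poly.const false) (hle 3))))
    (Poly.cons (NPC.Poly.const true) (Poly.cons (NPC.Poly.const false) (hle 2))))
    (Poly.cons (NPC.Poly.const true) (Poly.cons (NPC.Poly.const false) (hle 1))))
    (Poly.cons (NPC.Poly.const true) (Poly.cons (NPC.Poly.const false) (hle 0)))) (NPC.Poly.const _)

theorem poly_wrap {α : Type} [TEnc α] {u v : α → List Bool} {n M : α → ℕ} (hu : Poly u) (hv : Poly v)
    (hn : Poly n) (hM : UPoly M) : Poly (fun a => wrap (u a) (v a) (n a) (M a)) :=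
  Poly.cons (NPC.Poly.const true) (Poly.cons (NPC.Poly.const false) (Poly.append (poly_pad hM)
    (Poly.append (poly_preR hn) (Poly.append hu hv))))

theorem tail_iter {β : Type} (k : ℕ) (x : List β) : (fun s : List β => s.tail)^[k] x = x.drop k := by
  induction k generalizing x with
  | zero => simp
  | succ k ih => rw [Function.iterate_succ_apply, ih]; simp

theorem poly_drop {α β γ : Type} [TEnc α] [TEnc β] [TEnc γ] {x : α → List β} {k : α → List γ} (hx : Poly x)
    (hk : Poly k) : Poly (fun a => (x a).drop (k a).length) := by
  obtain ⟨q, hq⟩ := hx.sz_le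
  have h := Poly.iterLen (l := k) (s := x) (F := fun _ s => s.tail) hk hx (Poly.tail (Poly.snd Poly.id)) q
    (fun a j _ => by
      rw [tail_iter]
      exact (NPC.Poly.sz_drop_le _ _).trans (hq a))
  exact Poly.congr h fun a => tail_iter _ _

theorem poly_take {α β γ : Type} [TEnc α] [TEnc β] [TEnc γ] {x : α → List β} {k : α → List γ} (hx : Poly x)
    (hk : Poly k) : Poly (fun a => (x a).take (k a).length) := by
  have h := Poly.reverse (poly_drop (Poly.reverse hx) (poly_drop hx hk))
  refine Poly.congr h fun a => ?_
  rw [List.reverse_drop, List.reverse_reverse, List.length_reverse, List.length_drop]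
  rw [List.take_eq_take_iff]
  omega

theorem poly_pairBits {α : Type} [TEnc α] {x w : α → List Bool} (hx : Poly x) (hw : Poly w) :
    Poly (fun a => pairBits (x a) (w a)) :=
  Poly.append (Poly.flatMap (F := fun _ b => [true, b]) hx (Poly.cons (NPC.Poly.const true)
    (Poly.cons (Poly.snd Poly.id) (NPC.Poly.const [])))) (Poly.cons (NPC.Poly.const false) hw)

/-- numbers up to the length of `x`, in unary -/
def S (x : List Bool) : List Un :=
  (List.range (x.length + 1)).map (fun k => List.replicate (min k x.length) ())

theorem poly_S : Poly S :=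
  NPC.Poly.map (l := fun x : List Bool => List.range (x.length + 1))
    (F := fun x k => List.replicate (min k x.length) ())
    (UPoly.range (UPoly.add (UPoly.length Poly.id) (UPoly.const 1)))
    (UPoly.of_le (m := fun p : List Bool × ℕ => min p.2 p.1.length) (Poly.min (Poly.snd Poly.id) (Poly.length (Poly.fst Poly.id)))
      (UPoly.length (Poly.fst Poly.id)) (fun _ => min_le_right _ _))

theorem mem_S {x : List Bool} {k : ℕ} (h : k ≤ x.length) : List.replicate k () ∈ S x := by
  unfold S
  rw [List.mem_map]
  exact ⟨k, by rw [List.mem_range]; omega, by rw [min_eq_left h]⟩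

def pr {β : Type} (x : List Bool) (l : List β) : List (β × Un) :=
  l.flatMap (fun b => (S x).map (fun k => (b, k)))

theorem poly_pr {β : Type} [TEnc β] {l : List Bool → List β} (hl : Poly l) : Poly (fun x => pr x (l x)) :=
  Poly.flatMap (F := fun x b => (S x).map (fun k => (b, k))) hl
    (NPC.Poly.map (F := fun (p : List Bool × β) k => (p.2, k)) (poly_S.comp (Poly.fst Poly.id))
      (Poly.pair (Poly.snd (Poly.fst Poly.id)) (Poly.snd Poly.id)))

theorem mem_pr {β : Type} {x : List Bool} {l : List β} {b : β} {k : Un} (hb : b ∈ l) (hk : k ∈ S x) :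
    (b, k) ∈ pr x l := by
  unfold pr
  rw [List.mem_flatMap]
  exact ⟨b, hb, List.mem_map.2 ⟨k, hk, rfl⟩⟩

abbrev Ct : Type := ((((Un × Un) × Un) × Un) × Un) × Un

def cands (x : List Bool) : List Ct := pr x (pr x (pr x (pr x (pr x (S x)))))

theorem poly_cands : Poly cands := poly_pr (poly_pr (poly_pr (poly_pr (poly_pr poly_S))))

def uu (x : List Bool) (c : Ct) : List Bool := (x.drop c.1.1.1.1.1.length).take c.1.1.1.1.2.length
def vv (x : List Bool) (c : Ct) : List Bool := (x.drop c.1.1.1.1.1.length).drop c.1.1.1.1.2.length

/-- the guide string -/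
def gq (c₀ : ℕ) (a : List Bool × List Unit × List Unit × List Unit) : Option (List Bool) :=
  if (gam c₀ (a.1, a.2.1.length) a.2.2.1.length).length ≤ a.2.2.2.length then
      some (gam c₀ (a.1, a.2.1.length) a.2.2.1.length) else none

def ol (o : Option (List Bool)) : List (List Bool) :=
  match o with
  | none => []
  | some g => [g]

def qq (c₀ : ℕ) (x : List Bool) (c : Ct) : List (List Bool) :=
  if x = wrap (uu x c) (vv x c) c.1.1.1.2.length c.1.1.2.length ∧
    c.1.1.1.2.length ≤ lev c₀ (pairBits (uu x c) (vv x c), c.1.2.length) c.2.length then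
    ol (gq c₀ (pairBits (uu x c) (vv x c), c.1.2, c.2, c.1.1.2)) else []

theorem poly_ol {α : Type} [TEnc α] {o : α → Option (List Bool)} (ho : Poly o) : Poly (fun a => ol (o a)) := by
  refine Poly.congr (Poly.optCases (o := o) (g := fun _ => ([] : List (List Bool))) (h := fun _ g => [g]) ho
    (NPC.Poly.const []) (Poly.cons (Poly.snd Poly.id) (NPC.Poly.const []))) fun a => ?_
  unfold ol
  cases o a <;> rfl

theorem p_decs : P_decs := by
  classical
  intro hg c₀ O
  obtain ⟨hg1, hg2⟩ := hg c₀
  -- polynomial time
  have hx : Poly (fun p : List Bool × Ct => p.1) := Poly.fst Poly.id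
  have hc : Poly (fun p : List Bool × Ct => p.2) := Poly.snd Poly.id
  have ha : Poly (fun p : List Bool × Ct => p.2.1.1.1.1.1) := Poly.fst (Poly.fst (Poly.fst (Poly.fst (Poly.fst hc))))
  have hb : Poly (fun p : List Bool × Ct => p.2.1.1.1.1.2) := Poly.snd (Poly.fst (Poly.fst (Poly.fst (Poly.fst hc))))
  have hn : Poly (fun p : List Bool × Ct => p.2.1.1.1.2) := Poly.snd (Poly.fst (Poly.fst (Poly.fst hc)))
  have hM : Poly (fun p : List Bool × Ct => p.2.1.1.2) := Poly.snd (Poly.fst (Poly.fst hc))
  have hd : Poly (fun p : List Bool × Ct => p.2.1.2) := Poly.snd (Poly.fst hc)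
  have hm : Poly (fun p : List Bool × Ct => p.2.2) := Poly.snd hc
  have hu : Poly (fun p : List Bool × Ct => uu p.1 p.2) := poly_take (poly_drop hx ha) hb
  have hv : Poly (fun p : List Bool × Ct => vv p.1 p.2) := poly_drop (poly_drop hx ha) hb
  have huv : Poly (fun p : List Bool × Ct => pairBits (uu p.1 p.2) (vv p.1 p.2)) := poly_pairBits hu hv
  have hq : Poly (fun p : List Bool × Ct => qq c₀ p.1 p.2) := by
    unfold qq
    refine Poly.ite (Poly.decide_and (Poly.decide_eq hx (poly_wrap hu hv (Poly.length hn) (UPoly.length hM))) ?_) ?_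
      (NPC.Poly.const [])
    · exact Poly.comp hg2 (Poly.pair huv (Poly.pair hd (Poly.pair hm hn)))
    · exact poly_ol (Poly.comp (g := gq c₀) hg1 (Poly.pair huv (Poly.pair hd (Poly.pair hm hM))))
  have hQ : Poly (fun x => (cands x).flatMap (qq c₀ x)) := Poly.flatMap (F := qq c₀) poly_cands hq
  have hH : Poly (fun p : List Bool × List Bool => [p.2.any (fun b => b)]) :=
    Poly.cons (Poly.any (p := fun _ b => b) (Poly.snd Poly.id) (Poly.snd Poly.id)) (NPC.Poly.const [])
  have key := IsFP.tt (A := O) hQ hH
  have e : (fun x => [((((cands x).flatMap (qq c₀ x)).map O).any (fun b => b))]) = (fun x =>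
      [decide (∃ (u v : List Bool) (n M d m : ℕ), x = wrap u v n M ∧
        n ≤ lev c₀ (pairBits u v, d) m ∧ (gam c₀ (pairBits u v, d) m).length ≤ M ∧
        O (gam c₀ (pairBits u v, d) m) = true)]) := by
    funext x
    congr 1
    rw [Bool.eq_iff_iff, decide_eq_true_iff, List.any_eq_true]
    constructor
    · rintro ⟨b, hb1, hb2⟩
      rw [List.mem_map] at hb1
      obtain ⟨g, hg3, hg4⟩ := hb1
      rw [List.mem_flatMap] at hg3
      obtain ⟨c, -, hc2⟩ := hg3
      unfold qq at hc2
      split_ifs at hc2 with h1
      · unfold ol gq at hc2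
        split_ifs at hc2 with h2
        · rw [List.mem_singleton] at hc2
          subst hc2
          exact ⟨_, _, _, _, _, _, h1.1, h1.2, h2, by rw [hg4]; exact hb2⟩
        · simp at hc2
      · simp at hc2
    · rintro ⟨u, v, n, M, d, m, h1, h2, h3, h4⟩
      have l0 : (gam c₀ (pairBits u v, d) m).length =
          lev c₀ (pairBits u v, d) (m + 1) + (2 * (pairBits u v).length + (2 * d + m + 1) + 1) + 1 := by
        simp only [gam, List.length_append, List.length_replicate, List.length_cons, A2.length_pairBits]
        omega
      have l1 : lev c₀ (pairBits u v, d) m ≤ lev c₀ (pairBits u v, d) (m + 1) := by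
        unfold lev
        exact Nat.pow_le_pow_right (by norm_num) (Nat.pow_le_pow_right (by norm_num)
          (Nat.mul_le_mul_right _ (Nat.le_succ m)))
      have l2 : M ≤ (pad M).enc.length := by
        have : (big M).enc.length ≥ M := by
          rw [enc_big]
          simp only [List.length_append, List.length_flatMap]
          simp
          omega
        simp only [pad, Fm.enc, List.length_append, List.length_cons]
        omega
      have l3 : x.length = 2 + (pad M).enc.length + (preR n).length + u.length + v.length := by
        rw [h1]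
        simp only [wrap, List.length_append, List.length_cons]
        omega
      let pl : ℕ := 2 + (pad M).enc.length + (preR n).length
      have hpl : pl = 2 + (pad M).enc.length + (preR n).length := rfl
      have hdrop : x.drop pl = u ++ v := by
        have e1 : x = (true :: false :: ((pad M).enc ++ preR n)) ++ (u ++ v) := by
          rw [h1]
          simp [wrap]
        have e2 : (true :: false :: ((pad M).enc ++ preR n)).length = pl := by
          simp only [List.length_append, List.length_cons, hpl]
          omega
        rw [e1, ← e2, List.drop_left]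
      let c : Ct := (((((List.replicate pl (), List.replicate u.length ()), List.replicate n ()),
        List.replicate M ()), List.replicate d ()), List.replicate m ())
      have huu : uu x c = u := by
        simp only [uu, c, List.length_replicate, hdrop, List.take_left]
      have hvv : vv x c = v := by
        simp only [vv, c, List.length_replicate, hdrop, List.drop_left]
      refine ⟨true, ?_, rfl⟩
      rw [List.mem_map]
      refine ⟨gam c₀ (pairBits u v, d) m, ?_, h4⟩
      rw [List.mem_flatMap]
      refine ⟨c, ?_, ?_⟩
      · exact mem_pr (mem_pr (mem_pr (mem_pr (mem_pr (mem_S (by omega)) (mem_S (by omega)))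
          (mem_S (by omega))) (mem_S (by omega))) (mem_S (by omega))) (mem_S (by omega))
      · unfold qq
        rw [huu, hvv]
        simp only [c, List.length_replicate]
        rw [if_pos ⟨h1, h2⟩]
        unfold ol gq
        simp only [List.length_replicate]
        rw [if_pos h3]
        simp
  rw [e] at key
  exact key

end Pool.Agent.W2helper24.PR
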